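import Mathlib
import Pool.Agent.KS6_12.IG.Core

set_option autoImplicit false

/-!
# Graphs with independent domination number at most two that are isomorphic to their own `i`-graph

If `G` is isomorphic to its `i`-graph and has an independent dominating set with at most two vertices, then `G` is
complete or the cycle of length five.

Let `i(G) = 2`. The `i`-sets are the edges of a triangle-free graph `H` on the vertices of `G`, the `i`-graph of `G` is
the line graph of `H`, and an isomorphism with `G` gives a bijection `P` of the vertices and the edges of `H` such that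
`x, y` are adjacent in `H` iff `P x, P y` form a maximal matching of `H`. It is shown that `H` is a cycle of length
five (`Pool.Agent.KS6_12.IG.Core`).
-/

namespace Pool.Agent.Results.MP_ee5996_co.DominationNumberTwo

open Finset

variable {V : Type} [Fintype V] [DecidableEq V]

/-- `S` is an independent dominating set of `G`. -/
def IndepDom (G : SimpleGraph V) (S : Finset V) : Prop :=
  (∀ u ∈ S, ∀ v ∈ S, ¬ G.Adj u v) ∧ ∀ v, v ∉ S → ∃ u ∈ S, G.Adj v u

/-- `S` is an `i`-set of `G`: an independent dominating set of the least size. -/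
def ISet (G : SimpleGraph V) (S : Finset V) : Prop :=
  IndepDom G S ∧ ∀ S', IndepDom G S' → #S ≤ #S'

/-- The `i`-graph of `G`: its vertices are the `i`-sets, and two different `i`-sets `X`, `Y` are adjacent if
`Y = (X \ {u}) ∪ {v}` for some `u ∈ X` and `v ∈ Y` that are adjacent in `G`. -/
def iGraph (G : SimpleGraph V) : SimpleGraph {S : Finset V // ISet G S} where
  Adj X Y := X ≠ Y ∧ ∃ u ∈ X.1, ∃ v ∈ Y.1, G.Adj u v ∧ Y.1 = insert v (X.1.erase u)
  symm := ⟨by
    rintro X Y ⟨hne, u, hu, v, hv, huv, h⟩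
    refine ⟨hne.symm, v, hv, u, hu, huv.symm, ?_⟩
    have hvX : v ∉ X.1.erase u := fun h' => X.2.1.1 u hu v (mem_of_mem_erase h') huv
    rw [h, erase_insert hvX, insert_erase hu]⟩
  loopless := ⟨fun X h => h.1 rfl⟩

theorem iGraph_two {G : SimpleGraph V} {X Y : {S : Finset V // ISet G S}} (hX : #X.1 = 2) (hY : #Y.1 = 2) :
    (iGraph G).Adj X Y ↔ X ≠ Y ∧ ∃ r, r ∈ X.1 ∧ r ∈ Y.1 := by
  constructor
  · rintro ⟨hne, u, hu, v, -, -, h⟩
    refine ⟨hne, ?_⟩
    have h1 : 0 < #(X.1.erase u) := by rw [card_erase_of_mem hu]; omega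
    obtain ⟨r, hr⟩ := card_pos.1 h1
    exact ⟨r, mem_of_mem_erase hr, by rw [h]; exact mem_insert_of_mem hr⟩
  · rintro ⟨hne, r, hrX, hrY⟩
    refine ⟨hne, ?_⟩
    have h1 : #(X.1.erase r) = 1 := by rw [card_erase_of_mem hrX]; omega
    have h2 : #(Y.1.erase r) = 1 := by rw [card_erase_of_mem hrY]; omega
    obtain ⟨u, hu⟩ := card_eq_one.1 h1
    obtain ⟨v, hv⟩ := card_eq_one.1 h2
    have hX' : X.1 = insert r {u} := by rw [← hu, insert_erase hrX]
    have hY' : Y.1 = insert r {v} := by rw [← hv, insert_erase hrY]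
    have hur : u ≠ r := by
      have : u ∈ X.1.erase r := by rw [hu]; simp
      exact (mem_erase.1 this).1
    have hvr : v ≠ r := by
      have : v ∈ Y.1.erase r := by rw [hv]; simp
      exact (mem_erase.1 this).1
    have huv : u ≠ v := by
      rintro rfl
      exact hne (Subtype.ext (hX'.trans hY'.symm))
    have hvX : v ∉ X.1 := by
      rw [hX', mem_insert, mem_singleton, not_or]
      exact ⟨hvr, huv.symm⟩
    obtain ⟨w, hw, hw'⟩ := X.2.1.2 v hvX
    rw [hX', mem_insert, mem_singleton] at hw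
    have hvY : v ∈ Y.1 := by rw [hY']; simp
    have huX : u ∈ X.1 := by rw [hX']; simp
    rcases hw with rfl | rfl
    · exact absurd hw' (Y.2.1.1 v hvY w hrY)
    · refine ⟨w, huX, v, hvY, hw'.symm, ?_⟩
      rw [hX', hY']
      ext x
      simp only [mem_insert, mem_singleton, mem_erase]
      constructor
      · rintro (rfl | rfl)
        · exact Or.inr ⟨hur.symm, Or.inl rfl⟩
        · exact Or.inl rfl
      · rintro (rfl | ⟨h1, rfl | rfl⟩)
        · exact Or.inr rfl
        · exact Or.inl rfl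
        · exact absurd rfl h1

/-- If `G` is isomorphic to its `i`-graph and has an independent dominating set with at most two vertices, then `G` is
complete or a cycle of length five. -/
theorem result (V : Type) [Fintype V] [DecidableEq V] (G : SimpleGraph V)
    (hi : ∃ S : Finset V, IndepDom G S ∧ #S ≤ 2) (h : Nonempty (iGraph G ≃g G)) :
    G = ⊤ ∨ Nonempty (G ≃g SimpleGraph.cycleGraph 5) := by
  classical
  obtain ⟨S, hS, hS2⟩ := hi
  obtain ⟨φ⟩ := h
  rcases isEmpty_or_nonempty V with hV | hV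
  · left
    ext x
    exact hV.elim x
  obtain ⟨x0⟩ := hV
  have hmin : ∀ X : {S : Finset V // ISet G S}, #X.1 = #(φ.symm x0).1 := fun X =>
    le_antisymm (X.2.2 _ (φ.symm x0).2.1) ((φ.symm x0).2.2 _ X.2.1)
  have hle : #(φ.symm x0).1 ≤ 2 := ((φ.symm x0).2.2 S hS).trans hS2
  have hadj : ∀ x y, G.Adj x y ↔ (iGraph G).Adj (φ.symm x) (φ.symm y) := fun x y => φ.symm.map_rel_iff.symm
  have hpos : 0 < #(φ.symm x0).1 := by
    rw [card_pos]
    by_contra hcon
    rw [not_nonempty_iff_eq_empty] at hcon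
    obtain ⟨u, hu, -⟩ := (φ.symm x0).2.1.2 x0 (by rw [hcon]; simp)
    rw [hcon] at hu
    exact absurd hu (notMem_empty _)
  rcases (show #(φ.symm x0).1 = 1 ∨ #(φ.symm x0).1 = 2 by omega) with hc | hc
  · left
    ext x y
    rw [SimpleGraph.top_adj]
    refine ⟨fun h => h.ne, fun hne => ?_⟩
    rw [hadj]
    have hne' : φ.symm x ≠ φ.symm y := fun h => hne (φ.symm.injective h)
    refine ⟨hne', ?_⟩
    obtain ⟨u, hu⟩ := card_eq_one.1 ((hmin (φ.symm x)).trans hc)
    obtain ⟨v, hv⟩ := card_eq_one.1 ((hmin (φ.symm y)).trans hc)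
    have huv : v ≠ u := by
      rintro rfl
      exact hne' (Subtype.ext (hu.trans hv.symm))
    obtain ⟨w, hw, hw'⟩ := (φ.symm x).2.1.2 v (by rw [hu, mem_singleton]; exact huv)
    rw [hu, mem_singleton] at hw
    subst hw
    refine ⟨w, by rw [hu]; simp, v, by rw [hv]; simp, hw'.symm, ?_⟩
    rw [hu, hv]
    simp
  · right
    have hcard : ∀ X : {S : Finset V // ISet G S}, #X.1 = 2 := fun X => (hmin X).trans hc
    have hex : ∀ x : V, ∃ e : Sym2 V, ∀ v, v ∈ e ↔ v ∈ (φ.symm x).1 := by
      intro x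
      obtain ⟨a, b, -, hab⟩ := card_eq_two.1 (hcard (φ.symm x))
      exact ⟨s(a, b), fun v => by rw [hab, Sym2.mem_iff, mem_insert, mem_singleton]⟩
    choose P hP using hex
    have hG : ∀ x y, G.Adj x y ↔ x ≠ y ∧ ∃ v, v ∈ P x ∧ v ∈ P y := by
      intro x y
      rw [hadj, iGraph_two (hcard _) (hcard _)]
      refine and_congr ?_ ?_
      · exact φ.symm.injective.ne_iff
      · simp only [hP]
    let H : SimpleGraph V :=
      { Adj := fun u v => u ≠ v ∧ ISet G {u, v}
        symm := ⟨fun u v h => ⟨h.1.symm, by rw [Finset.pair_comm]; exact h.2⟩⟩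
        loopless := ⟨fun u h => h.1 rfl⟩ }
    have hH : ∀ u v, H.Adj u v ↔ u ≠ v ∧ ISet G {u, v} := fun u v => Iff.rfl
    have hH' : ∀ u v, H.Adj u v ↔ u ≠ v ∧ ¬ G.Adj u v ∧ ∀ w, w ≠ u → w ≠ v → G.Adj w u ∨ G.Adj w v := by
      intro u v
      rw [hH]
      refine and_congr_right fun huv => ?_
      constructor
      · rintro ⟨⟨h1, h2⟩, -⟩
        refine ⟨h1 u (by simp) v (by simp), fun w hwu hwv => ?_⟩
        obtain ⟨r, hr, hr'⟩ := h2 w (by simp [hwu, hwv])
        rw [mem_insert, mem_singleton] at hr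
        rcases hr with rfl | rfl
        · exact Or.inl hr'
        · exact Or.inr hr'
      · rintro ⟨h1, h2⟩
        refine ⟨⟨?_, ?_⟩, ?_⟩
        · intro r hr s hs
          rw [mem_insert, mem_singleton] at hr hs
          rcases hr with rfl | rfl <;> rcases hs with rfl | rfl
          · exact G.irrefl
          · exact h1
          · exact fun h => h1 h.symm
          · exact G.irrefl
        · intro w hw
          rw [mem_insert, mem_singleton, not_or] at hw
          rcases h2 w hw.1 hw.2 with h | h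
          · exact ⟨u, by simp, h⟩
          · exact ⟨v, by simp, h⟩
        · intro S' hS'
          rw [card_pair huv, ← hc]
          exact (φ.symm x0).2.2 S' hS'
    have hne : ∀ x, ∃ v, v ∈ P x := fun x => ⟨_, Sym2.out_fst_mem (P x)⟩
    have D : Pool.Agent.KS6_12.IG.Data H P := by
      refine ⟨fun x => ?_, fun e he => ?_, fun x y hxy => ?_, fun x y => ?_, fun u v w h1 h2 h3 => ?_⟩
      · obtain ⟨a, b, hne', hab⟩ := card_eq_two.1 (hcard (φ.symm x))
        have ha : a ∈ P x := by rw [hP, hab]; simp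
        have hb : b ∈ P x := by rw [hP, hab]; simp
        rw [(Sym2.mem_and_mem_iff hne').1 ⟨ha, hb⟩]
        refine (hH a b).2 ⟨hne', ?_⟩
        rw [← hab]
        exact (φ.symm x).2
      · induction e using Sym2.ind with
        | _ u v =>
          have he' := (hH u v).1 he
          refine ⟨φ ⟨{u, v}, he'.2⟩, ?_⟩
          refine (Sym2.mem_and_mem_iff he'.1).1 ⟨?_, ?_⟩ <;> rw [hP] <;> simp
      · apply φ.symm.injective
        apply Subtype.ext
        ext v
        rw [← hP, ← hP, hxy]
      · rw [hH']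
        constructor
        · rintro ⟨h1, h2, h3⟩
          refine ⟨fun v hv hv' => h2 ((hG x y).2 ⟨h1, v, hv, hv'⟩), fun w => ?_⟩
          by_cases hwx : w = x
          · obtain ⟨v, hv⟩ := hne w
            exact ⟨v, hv, Or.inl (by rw [← hwx]; exact hv)⟩
          by_cases hwy : w = y
          · obtain ⟨v, hv⟩ := hne w
            exact ⟨v, hv, Or.inr (by rw [← hwy]; exact hv)⟩
          rcases h3 w hwx hwy with h | h
          · obtain ⟨-, v, hv, hv'⟩ := (hG w x).1 h
            exact ⟨v, hv, Or.inl hv'⟩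
          · obtain ⟨-, v, hv, hv'⟩ := (hG w y).1 h
            exact ⟨v, hv, Or.inr hv'⟩
        · rintro ⟨h1, h2⟩
          refine ⟨?_, ?_, fun w hwx hwy => ?_⟩
          · rintro rfl
            obtain ⟨v, hv⟩ := hne x
            exact h1 v hv hv
          · intro h
            obtain ⟨-, v, hv, hv'⟩ := (hG x y).1 h
            exact h1 v hv hv'
          · obtain ⟨v, hv, hv' | hv'⟩ := h2 w
            · exact Or.inl ((hG w x).2 ⟨hwx, v, hv, hv'⟩)
            · exact Or.inr ((hG w y).2 ⟨hwy, v, hv, hv'⟩)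
      · rcases ((hH' u v).1 h1).2.2 w h2.ne.symm h3.ne.symm with h | h
        · exact ((hH' u w).1 h2).2.1 h.symm
        · exact ((hH' v w).1 h3).2.1 h.symm
    haveI : Nonempty V := ⟨x0⟩
    obtain ⟨a, b, c, p, q, x, y, z, u, v, ⟨n1, n2, n3, n4, n5, n6, n7, n8, n9, n10⟩, hx, hy, hz, hu, hv, hall⟩ := D.five
    let f : Fin 5 → V := ![x, z, v, u, y]
    let Q : Fin 5 → Sym2 V := ![s(a, b), s(b, q), s(q, c), s(c, p), s(p, a)]
    have hQ : ∀ i, P (f i) = Q i := by
      intro i
      fin_cases i
      · exact hx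
      · exact hz
      · exact hv.trans Sym2.eq_swap
      · exact hu
      · exact hy.trans Sym2.eq_swap
    have hshare : ∀ i j, (i ≠ j ∧ ∃ v, v ∈ Q i ∧ v ∈ Q j) ↔ (j = i + 1 ∨ i = j + 1) := by
      intro i j
      fin_cases i <;> fin_cases j <;>
        simp [Q, or_and_right, exists_or, n1, n2, n3, n4, n5, n6, n7, n8, n9, n10, n1.symm, n2.symm, n3.symm, n4.symm,
          n5.symm, n6.symm, n7.symm, n8.symm, n9.symm, n10.symm]
    have hQinj : Function.Injective Q := by
      intro i j hij
      fin_cases i <;> fin_cases j <;>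
        simp_all [Q, n1.symm, n2.symm, n3.symm, n4.symm, n5.symm, n6.symm, n7.symm, n8.symm, n9.symm, n10.symm]
    have hinj : Function.Injective f := fun i j hij => hQinj (by rw [← hQ, ← hQ, hij])
    have hsurj : Function.Surjective f := by
      intro w
      rcases hall w with rfl | rfl | rfl | rfl | rfl
      · exact ⟨0, rfl⟩
      · exact ⟨4, rfl⟩
      · exact ⟨1, rfl⟩
      · exact ⟨3, rfl⟩
      · exact ⟨2, rfl⟩
    have hcyc : ∀ i j : Fin 5, (SimpleGraph.cycleGraph 5).Adj i j ↔ (j = i + 1 ∨ i = j + 1) := by decide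
    refine ⟨SimpleGraph.Iso.symm ⟨Equiv.ofBijective f ⟨hinj, hsurj⟩, ?_⟩⟩
    intro i j
    show G.Adj (f i) (f j) ↔ _
    rw [hG, hcyc, ← hshare, hQ, hQ]
    exact and_congr_left' hinj.ne_iff

end Pool.Agent.Results.MP_ee5996_co.DominationNumberTwo
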