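import Mathlib

set_option autoImplicit false

/-!
# Graphs isomorphic to their own `i`-graph that are neither complete nor cycles

The complete graphs and the cycles `C_k`, `k ≡ 2 (mod 3)`, are isomorphic to their `i`-graphs. They are not the only
ones: `C_7` is another one, and there are connected graphs with ten vertices, not regular, with independent domination
number three and four.
-/

namespace Pool.Agent.Results.MP_ee5996_co.SporadicGraphs

open Finset

variable {V : Type} [Fintype V] [DecidableEq V]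

/-- `S` is an independent dominating set of `G`. -/
def IndepDom (G : SimpleGraph V) (S : Finset V) : Prop :=
  (∀ u ∈ S, ∀ v ∈ S, ¬ G.Adj u v) ∧ ∀ v, v ∉ S → ∃ u ∈ S, G.Adj v u

/-- `S` is an `i`-set of `G`: an independent dominating set of the least size. -/
def ISet (G : SimpleGraph V) (S : Finset V) : Prop :=
  IndepDom G S ∧ ∀ S', IndepDom G S' → #S ≤ #S'

/-- The `i`-graph of `G`: its vertices are the `i`-sets, and two different `i`-sets `X`, `Y` are adjacent if
`Y = (X \ {u}) ∪ {v}` for some `u ∈ X` and `v ∈ Y` that are adjacent in `G`. -/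
def iGraph (G : SimpleGraph V) : SimpleGraph {S : Finset V // ISet G S} where
  Adj X Y := X ≠ Y ∧ ∃ u ∈ X.1, ∃ v ∈ Y.1, G.Adj u v ∧ Y.1 = insert v (X.1.erase u)
  symm := ⟨by
    rintro X Y ⟨hne, u, hu, v, hv, huv, h⟩
    refine ⟨hne.symm, v, hv, u, hu, huv.symm, ?_⟩
    have hvX : v ∉ X.1.erase u := fun h' => X.2.1.1 u hu v (mem_of_mem_erase h') huv
    rw [h, erase_insert hvX, insert_erase hu]⟩
  loopless := ⟨fun X h => h.1 rfl⟩

instance decDom (G : SimpleGraph V) [DecidableRel G.Adj] (S : Finset V) : Decidable (IndepDom G S) := by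
  unfold IndepDom; infer_instance

theorem mk {n k : ℕ} (G : SimpleGraph (Fin n)) (f : Fin n → Finset (Fin n)) (i0 : Fin n)
    (h1 : ∀ S, IndepDom G S → k ≤ #S ∧ (#S = k → ∃ i, f i = S)) (h2 : ∀ i, IndepDom G (f i) ∧ #(f i) = k)
    (h3 : ∀ i j, f i = f j → i = j)
    (h4 : ∀ i j, G.Adj i j ↔ f i ≠ f j ∧ ∃ u ∈ f i, ∃ v ∈ f j, G.Adj u v ∧ f j = insert v ((f i).erase u)) :
    (∀ S, ISet G S → #S = k) ∧ Nonempty (iGraph G ≃g G) := by
  have hI : ∀ i, ISet G (f i) := fun i => ⟨(h2 i).1, fun S' hS' => by rw [(h2 i).2]; exact (h1 S' hS').1⟩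
  have hk : ∀ S, ISet G S → #S = k := fun S hS =>
    le_antisymm (by rw [← (h2 i0).2]; exact hS.2 _ (h2 i0).1) (h1 S hS.1).1
  refine ⟨hk, ⟨SimpleGraph.Iso.symm ⟨Equiv.ofBijective (fun i => (⟨f i, hI i⟩ : {S : Finset (Fin n) // ISet G S}))
    ⟨fun i j h => h3 i j (congrArg Subtype.val h), fun X => ?_⟩, ?_⟩⟩⟩
  · obtain ⟨i, hi⟩ := (h1 X.1 X.2.1).2 (hk X.1 X.2)
    exact ⟨i, Subtype.ext hi⟩
  · intro i j
    rw [h4]
    show ((⟨f i, hI i⟩ : {S : Finset (Fin n) // ISet G S}) ≠ ⟨f j, hI j⟩ ∧ _) ↔ _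
    refine and_congr_left' (not_congr ?_)
    exact ⟨fun h => congrArg Subtype.val h, fun h => Subtype.ext h⟩

/-- a graph on ten vertices, given by the rows of its adjacency matrix -/
def ofRows (l : List ℕ) (h : ∀ u v : Fin 10, (l.getD u 0).testBit v = true → (l.getD v 0).testBit u = true)
    (h' : ∀ u : Fin 10, ¬ (l.getD u 0).testBit u = true) : SimpleGraph (Fin 10) where
  Adj u v := (l.getD u 0).testBit v = true
  symm := ⟨h⟩
  loopless := ⟨h'⟩

instance decRows (l : List ℕ) (h) (h') : DecidableRel (ofRows l h h').Adj := fun u v =>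
  inferInstanceAs (Decidable ((l.getD u 0).testBit v = true))

/-- the first graph -/
def GB : SimpleGraph (Fin 10) :=
  ofRows [656, 416, 832, 896, 129, 258, 516, 27, 46, 77] (by decide +kernel) (by decide +kernel)

/-- the second graph -/
def GA : SimpleGraph (Fin 10) :=
  ofRows [672, 704, 832, 128, 256, 769, 6, 11, 52, 39] (by decide +kernel) (by decide +kernel)

instance : DecidableRel GA.Adj := decRows _ _ _
instance : DecidableRel GB.Adj := decRows _ _ _

theorem gb : (∀ S, ISet GB S → #S = 3) ∧ Nonempty (iGraph GB ≃g GB) :=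
  mk GB ![{4, 5, 9}, {4, 6, 8}, {5, 6, 7}, {7, 8, 9}, {1, 4, 9}, {0, 6, 8}, {2, 5, 7}, {4, 8, 9}, {6, 7, 8}, {5, 7, 9}]
    0 (by decide +kernel) (by decide +kernel) (by decide +kernel) (by decide +kernel)

theorem ga : (∀ S, ISet GA S → #S = 4) ∧ Nonempty (iGraph GA ≃g GA) :=
  mk GA ![{0, 3, 4, 6}, {3, 6, 8, 9}, {4, 6, 7, 9}, {0, 1, 3, 8}, {2, 4, 5, 7}, {3, 4, 5, 6}, {6, 7, 8, 9},
    {0, 3, 6, 8}, {4, 5, 6, 7}, {3, 4, 6, 9}]
    0 (by decide +kernel) (by decide +kernel) (by decide +kernel) (by decide +kernel)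

theorem c7 : Nonempty (iGraph (SimpleGraph.cycleGraph 7) ≃g SimpleGraph.cycleGraph 7) :=
  (mk (k := 3) (SimpleGraph.cycleGraph 7) ![{0, 2, 4}, {0, 2, 5}, {0, 3, 5}, {1, 3, 5}, {1, 3, 6}, {1, 4, 6}, {2, 4, 6}]
    0 (by decide +kernel) (by decide +kernel) (by decide +kernel) (by decide +kernel)).2

theorem connected_of {G : SimpleGraph (Fin 10)} (h : ∀ v, G.Reachable 0 v) : G.Connected :=
  { preconnected := fun u v => (h u).symm.trans (h v), nonempty := ⟨0⟩ }

theorem conn_b : GB.Connected := by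
  have a : ∀ u v, GB.Adj u v → GB.Reachable u v := fun u v h => h.reachable
  have h7 := a 0 7 (by decide +kernel)
  have h9 := a 0 9 (by decide +kernel)
  have h1 := h7.trans (a 7 1 (by decide +kernel))
  refine connected_of fun v => ?_
  fin_cases v
  · exact SimpleGraph.Reachable.refl _
  · exact h1
  · exact h9.trans (a 9 2 (by decide +kernel))
  · exact h7.trans (a 7 3 (by decide +kernel))
  · exact a 0 4 (by decide +kernel)
  · exact h1.trans (a 1 5 (by decide +kernel))
  · exact h9.trans (a 9 6 (by decide +kernel))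
  · exact h7
  · exact h1.trans (a 1 8 (by decide +kernel))
  · exact h9

theorem conn_a : GA.Connected := by
  have a : ∀ u v, GA.Adj u v → GA.Reachable u v := fun u v h => h.reachable
  have h7 := a 0 7 (by decide +kernel)
  have h9 := a 0 9 (by decide +kernel)
  have h1 := h7.trans (a 7 1 (by decide +kernel))
  have h2 := h9.trans (a 9 2 (by decide +kernel))
  have h8 := h2.trans (a 2 8 (by decide +kernel))
  refine connected_of fun v => ?_
  fin_cases v
  · exact SimpleGraph.Reachable.refl _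
  · exact h1
  · exact h2
  · exact h7.trans (a 7 3 (by decide +kernel))
  · exact h8.trans (a 8 4 (by decide +kernel))
  · exact a 0 5 (by decide +kernel)
  · exact h2.trans (a 2 6 (by decide +kernel))
  · exact h7
  · exact h8
  · exact h9

theorem degree_eq (G : SimpleGraph (Fin 10)) [DecidableRel G.Adj] (v : Fin 10) :
    (G.neighborSet v).ncard = #(univ.filter fun w => G.Adj v w) := by
  rw [← Set.ncard_coe_finset]
  congr 1
  ext w
  simp

/-- The cycle `C_7` is isomorphic to its `i`-graph, and for `k = 3, 4` there is a connected graph with ten vertices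
and independent domination number `k`, not all of its vertices having the same degree, that is isomorphic to its
`i`-graph. -/
theorem result : Nonempty (iGraph (SimpleGraph.cycleGraph 7) ≃g SimpleGraph.cycleGraph 7) ∧
    ∀ k : ℕ, k = 3 ∨ k = 4 → ∃ G : SimpleGraph (Fin 10), G.Connected ∧
      (∃ u v, (G.neighborSet u).ncard ≠ (G.neighborSet v).ncard) ∧ (∀ S, ISet G S → #S = k) ∧
      Nonempty (iGraph G ≃g G) := by
  refine ⟨c7, fun k hk => ?_⟩
  rcases hk with rfl | rfl
  · refine ⟨GB, conn_b, ⟨0, 4, ?_⟩, gb.1, gb.2⟩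
    rw [degree_eq, degree_eq]
    decide +kernel
  · refine ⟨GA, conn_a, ⟨0, 3, ?_⟩, ga.1, ga.2⟩
    rw [degree_eq, degree_eq]
    decide +kernel

end Pool.Agent.Results.MP_ee5996_co.SporadicGraphs
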